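import Mathlib
import Pool.Agent.Helper26.OB.Defs

/-!
# OB, block C1: the corollary for points of degree divisible by a large prime
-/

set_option autoImplicit false

namespace Pool.Agent.Helper10.OB

open MvPolynomial Pool.Agent.Helper86.DML Pool.Agent.Helper61.TH Pool.Agent.Helper87.FK
open Pool.Agent.Helper26.OB
open Pool.Agent.Helper26.FU (MultiHom)

noncomputable section

variable {s : ℕ} {d : Fin s → ℕ}

/-- the Wronskian in coordinates -/
def wp (c : Idx d → ℂ) (a : Fin s) : Polynomial ℂ :=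
  ∑ i : Fin (d a + 1), ∑ j : Fin (d a + 1),
    Polynomial.C (((i : ℕ) - (j : ℕ) : ℂ) * c ⟨a, (0, i)⟩ * c ⟨a, (1, j)⟩) *
      Polynomial.X ^ ((i : ℕ) + j - 1)

theorem eval_wp (c : Idx d → ℂ) (a : Fin s) (x : Fin 2 → ℂ) (h : x 1 = 1) :
    (wp c a).eval (x 0) = wrh c a x := by
  rw [wp, wrh, Polynomial.eval_finsetSum]
  refine Finset.sum_congr rfl fun i _ => ?_
  rw [Polynomial.eval_finsetSum]
  refine Finset.sum_congr rfl fun j _ => ?_
  rw [h, one_pow, mul_one, Polynomial.eval_mul, Polynomial.eval_C, Polynomial.eval_pow,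
    Polynomial.eval_X]

theorem natDegree_wp (c : Idx d → ℂ) (a : Fin s) : (wp c a).natDegree ≤ 2 * d a - 2 := by
  refine Polynomial.natDegree_sum_le_of_forall_le _ _ fun i _ => ?_
  refine Polynomial.natDegree_sum_le_of_forall_le _ _ fun j _ => ?_
  by_cases h : (i : ℕ) = j
  · rw [h, sub_self, zero_mul, zero_mul, Polynomial.C_0, zero_mul, Polynomial.natDegree_zero]
    exact Nat.zero_le _
  · refine (Polynomial.natDegree_C_mul_X_pow_le _ _).trans ?_
    have h1 := i.2
    have h2 := j.2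
    omega

/-- the coordinate form is the Wronskian -/
theorem wp_eq (c : Idx d → ℂ) (a : Fin s) : wp c a =
    -Polynomial.wronskian (pl c a 0) (pl c a 1) := by
  have h0 : ∀ i : Fin 2, Polynomial.derivative (pl c a i) =
      ∑ j : Fin (d a + 1), Polynomial.C (((j : ℕ) : ℂ) * c ⟨a, (i, j)⟩) *
        Polynomial.X ^ ((j : ℕ) - 1) := by
    intro i
    rw [pl, Polynomial.derivative_sum]
    refine Finset.sum_congr rfl fun j _ => ?_
    rw [Polynomial.derivative_C_mul_X_pow, mul_comm (c _)]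
  rw [Polynomial.wronskian, h0, h0, wp, neg_sub]
  rw [pl, pl, Finset.sum_mul_sum, Finset.sum_mul_sum, ← Finset.sum_sub_distrib]
  refine Finset.sum_congr rfl fun i _ => ?_
  rw [← Finset.sum_sub_distrib]
  refine Finset.sum_congr rfl fun j _ => ?_
  rcases Nat.eq_zero_or_pos (i : ℕ) with hi | hi
  · rcases Nat.eq_zero_or_pos (j : ℕ) with hj | hj
    · rw [hi, hj]
      simp
    · obtain ⟨m, hm⟩ : ∃ m, (j : ℕ) = m + 1 := ⟨(j : ℕ) - 1, by omega⟩
      rw [hi, hm]
      simp only [Nat.cast_zero, zero_sub, zero_mul, Polynomial.C_0, Nat.zero_add,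
        Nat.add_sub_cancel, pow_zero, mul_one, Polynomial.C_mul, Polynomial.C_neg]
      ring
  · obtain ⟨n, hn⟩ : ∃ n, (i : ℕ) = n + 1 := ⟨(i : ℕ) - 1, by omega⟩
    rcases Nat.eq_zero_or_pos (j : ℕ) with hj | hj
    · rw [hj, hn]
      simp only [Nat.cast_zero, sub_zero, zero_mul, Polynomial.C_0, Nat.add_zero,
        Nat.add_sub_cancel, pow_zero, mul_one, Polynomial.C_mul]
      ring
    · obtain ⟨m, hm⟩ : ∃ m, (j : ℕ) = m + 1 := ⟨(j : ℕ) - 1, by omega⟩
      have h1 : n + 1 + (m + 1) - 1 = n + 1 + m := by omega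
      rw [hn, hm, h1]
      simp only [Nat.add_sub_cancel, Polynomial.C_mul, Polynomial.C_sub, pow_add, pow_one]
      ring

theorem wp_ne_zero (c : Idx d → ℂ) (hdeg : HasDeg c) (a : Fin s) (hd : 1 ≤ d a) :
    wp c a ≠ 0 := by
  intro h0
  rw [wp_eq, neg_eq_zero] at h0
  have hev : ∀ (i : Fin 2) (z : ℂ), (pl c a i).eval z =
      ∑ j : Fin (d a + 1), c ⟨a, (i, j)⟩ * z ^ (j : ℕ) := by
    intro i z
    rw [pl, Polynomial.eval_finsetSum]
    refine Finset.sum_congr rfl fun j _ => ?_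
    simp
  have hcop : IsCoprime (pl c a 0) (pl c a 1) := by
    rw [Polynomial.isCoprime_iff_aeval_ne_zero_of_isAlgClosed ℂ ℂ]
    intro z
    by_contra hcon
    push Not at hcon
    have h1 := hdeg a ![z, 1] (by
      funext i
      have h2 : (pl c a i).eval z = 0 := by
        have h3 := hcon.1
        have h4 := hcon.2
        rw [Polynomial.coe_aeval_eq_eval] at h3 h4
        fin_cases i
        · exact h3
        · exact h4
      rw [hev] at h2
      simp only [Matrix.cons_val_zero, Matrix.cons_val_one, one_pow, mul_one, Pi.zero_apply]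
      exact h2)
    have h2 := congrFun h1 1
    simp at h2
  obtain ⟨h1, h2⟩ := (hcop.wronskian_eq_zero_iff).1 h0
  have hco : ∀ i : Fin 2, c ⟨a, (i, Fin.last (d a))⟩ = 0 := by
    intro i
    have h3 : Polynomial.derivative (pl c a i) = 0 := by
      fin_cases i
      · exact h1
      · exact h2
    have h4 := Polynomial.derivative_eq_zero.1 h3
    have h5 : (pl c a i).coeff (d a) = 0 :=
      Polynomial.coeff_eq_zero_of_natDegree_lt (by omega)
    rw [pl, Polynomial.finsetSum_coeff] at h5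
    rw [Finset.sum_eq_single (Fin.last (d a))] at h5
    · simpa using h5
    · intro j _ hj
      rw [Polynomial.coeff_C_mul, Polynomial.coeff_X_pow, if_neg, mul_zero]
      intro h6
      exact hj (Fin.ext (by rw [Fin.val_last]; exact h6.symm))
    · intro h6
      exact absurd (Finset.mem_univ _) h6
  have h3 := hdeg a ![1, 0] (by
    funext i
    simp only [Matrix.cons_val_zero, Matrix.cons_val_one, one_pow, mul_one, Pi.zero_apply]
    refine Finset.sum_eq_zero fun j _ => ?_
    by_cases hj : j = Fin.last (d a)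
    · rw [hj, hco, zero_mul]
    · have h4 : d a - (j : ℕ) ≠ 0 := by
        have h5 := j.2
        have h6 : (j : ℕ) ≠ d a := fun h7 => hj (Fin.ext (by rw [Fin.val_last]; exact h7))
        omega
      rw [zero_pow h4, mul_zero])
  have h4 := congrFun h3 0
  simp at h4

/-- orbits in a finite set -/
theorem minimalPeriod_le_card {A : Type*} (f : A → A) (hf : Function.Injective f) (S : Finset A)
    (hS : ∀ x ∈ S, f x ∈ S) (z : A) (hz : z ∈ S) :
    0 < Function.minimalPeriod f z ∧ Function.minimalPeriod f z ≤ S.card := by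
  classical
  have h1 : ∀ m, f^[m] z ∈ S := by
    intro m
    induction m with
    | zero => exact hz
    | succ m ih => rw [Function.iterate_succ_apply']; exact hS _ ih
  have hpos : 0 < Function.minimalPeriod f z := by
    obtain ⟨a, -, b, -, hab, h2⟩ := Set.infinite_univ.exists_ne_map_eq_of_mapsTo
      (f := fun m : ℕ => f^[m] z) (t := (S : Set A)) (fun m _ => h1 m) S.finite_toSet
    wlog h : a < b generalizing a b
    · exact this b a hab.symm h2.symm (lt_of_le_of_ne (not_lt.1 h) hab.symm)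
    refine Function.IsPeriodicPt.minimalPeriod_pos (n := b - a) (by omega) ?_
    have h3 : f^[a] (f^[b - a] z) = f^[a] z := by
      rw [← Function.iterate_add_apply]
      have h4 : a + (b - a) = b := by omega
      rw [h4]
      exact h2.symm
    exact (hf.iterate a) h3
  refine ⟨hpos, ?_⟩
  have h2 : ((Finset.range (Function.minimalPeriod f z)).image fun m => f^[m] z) ⊆ S := by
    intro x hx
    obtain ⟨m, -, rfl⟩ := Finset.mem_image.1 hx
    exact h1 m
  have h3 := Finset.card_le_card h2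
  rw [Finset.card_image_of_injOn, Finset.card_range] at h3
  · exact h3
  · intro i hi j hj hij
    exact Function.iterate_injOn_Iio_minimalPeriod (by simpa using hi) (by simpa using hj) hij

theorem minimalPeriod_some {A : Type*} (f : A → A) (x : A) :
    Function.minimalPeriod (Option.map f) (some x) = Function.minimalPeriod f x := by
  refine Function.minimalPeriod_eq_minimalPeriod_iff.2 fun m => ?_
  have h1 : ∀ m, (Option.map f)^[m] (some x) = some (f^[m] x) := by
    intro m
    induction m with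
    | zero => rfl
    | succ m ih => rw [Function.iterate_succ_apply', Function.iterate_succ_apply', ih]; rfl
  rw [Function.IsPeriodicPt, Function.IsFixedPt, h1, Function.IsPeriodicPt,
    Function.IsFixedPt, Option.some_inj]

theorem ol_fin {F : Type*} [Field F] (σ : F →+* F) {x : Fin 2 → F} (h : x 1 ≠ 0) :
    ol σ x = Function.minimalPeriod σ (x 0 / x 1) := by
  have h1 : pr x = some (x 0 / x 1) := by
    unfold pr
    rw [if_neg h]
  rw [ol, h1]
  exact minimalPeriod_some _ _

theorem ol_infty {F : Type*} [Field F] (σ : F →+* F) {x : Fin 2 → F} (h : x 1 = 0) :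
    ol σ x = 1 := by
  have h1 : pr x = none := by
    unfold pr
    rw [if_pos h]
  rw [ol, h1, Function.minimalPeriod_eq_one_iff_isFixedPt]
  rfl

/-- scaling of the Wronskian -/
theorem wrh_smul (c : Idx d → ℂ) (a : Fin s) (l : ℂ) (x : Fin 2 → ℂ) :
    wrh c a (fun i => l * x i) = l ^ (2 * d a - 2) * wrh c a x := by
  rw [wrh, wrh, Finset.mul_sum]
  refine Finset.sum_congr rfl fun i _ => ?_
  rw [Finset.mul_sum]
  refine Finset.sum_congr rfl fun j _ => ?_
  by_cases h : (i : ℕ) = j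
  · rw [h, sub_self]
    ring
  · have h1 := i.2
    have h2 := j.2
    have h3 : 2 * d a - 2 = ((i : ℕ) + j - 1) + (2 * d a - 1 - i - j) := by omega
    rw [h3, mul_pow, mul_pow, pow_add]
    ring

/-- **C1**: the corollary, from `main` and `sylow` -/
theorem cor_of
    (main : ∀ {k : ℕ} (d : Fin k → ℕ) (D : ℕ) (hd : ∀ a, 1 ≤ d a ∧ d a ≤ D) (c : Idx d → ℂ)
      (hc : ∀ q, IsAlgebraic ℚ (c q)) (hdeg : HasDeg c) (π : Fin k → Fin k) (α : Fin k → Fin 2 → ℂ)
      (hα : ∀ b, α b ≠ 0) (σ : ℂ ≃+* ℂ) (hσ : ∀ q, σ (c q) = c q)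
      (h : ∀ a b, Adm π a b → IsAlgebraic ℚ (α b 0 / α b 1) → ∀ x : Fin 2 → ℂ, x ≠ 0 → wrh c a x = 0 →
        ∀ e, ol (σ : ℂ →+* ℂ) (α b) = e * ol (σ : ℂ →+* ℂ) x → ∃ r, r.Prime ∧ r ∣ e ∧ D < r)
      (V : Set (MvPolynomial (Fin k × Fin 2) ℂ)) (hV : ∀ G ∈ V, MultiHom G), ∃ S : Finset (ℕ × ℕ),
        {m : ℕ | ∀ G ∈ V, eval (fun q => (sysMap c id π)^[m] α q.1 q.2) G = 0} =
          {m | ∃ q ∈ S, ∃ j, m = q.1 + q.2 * j})
    (sylow : ∀ (K : Subfield ℂ) [NumberField K] (l : ℕ) (hl : l.Prime) {k : ℕ} (hk : k ≤ l) (x : Fin k → ℂ)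
      (hx : ∀ b, IsAlgebraic ℚ (x b) → l ∣ (minpoly K (x b)).natDegree),
      ∃ σ : ℂ ≃+* ℂ, (∀ z ∈ K, σ z = z) ∧ ∀ b, IsAlgebraic ℚ (x b) →
        l ∣ Function.minimalPeriod σ (x b))
    {k : ℕ} (K : Subfield ℂ) [NumberField K] (d : Fin k → ℕ) (D : ℕ) (hd : ∀ a, 1 ≤ d a ∧ d a ≤ D)
    (c : Idx d → ℂ) (hc : ∀ q, c q ∈ K) (hdeg : HasDeg c) (l : ℕ) (hl : l.Prime) (hDl : D < l)
    (hDl2 : 2 * D - 2 < l) (hk : k ≤ l) (π : Fin k → Fin k) (α : Fin k → Fin 2 → ℂ) (hα : ∀ b, α b ≠ 0)
    (h : ∀ b, Transcendental ℚ (α b 0 / α b 1) ∨ l ∣ (minpoly K (α b 0 / α b 1)).natDegree)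
    (V : Set (MvPolynomial (Fin k × Fin 2) ℂ)) (hV : ∀ G ∈ V, MultiHom G) : ∃ S : Finset (ℕ × ℕ),
      {m : ℕ | ∀ G ∈ V, eval (fun q => (sysMap c id π)^[m] α q.1 q.2) G = 0} =
        {m | ∃ q ∈ S, ∃ j, m = q.1 + q.2 * j} := by
  classical
  obtain ⟨σ, hσK, hσx⟩ := sylow K l hl hk (fun b => α b 0 / α b 1)
    (fun b hb => (h b).resolve_left fun h1 => h1 hb)
  have hcalg : ∀ q, IsAlgebraic ℚ (c q) := by
    intro q
    have h1 : IsAlgebraic ℚ (⟨c q, hc q⟩ : K) := Algebra.IsAlgebraic.isAlgebraic _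
    exact (isAlgebraic_algebraMap_iff (S := K) (A := ℂ) Subtype.val_injective).2 h1
  refine main d D hd c hcalg hdeg π α hα σ (fun q => hσK _ (hc q)) ?_ V hV
  intro a b _ halg x hx0 hx e he
  refine ⟨l, hl, ?_, hDl⟩
  have h1 : l ∣ ol (σ : ℂ →+* ℂ) (α b) := by
    by_cases h2 : α b 1 = 0
    · have h3 := hσx b halg
      simp only [h2, div_zero] at h3
      have h4 : Function.minimalPeriod σ (0 : ℂ) = 1 :=
        Function.minimalPeriod_eq_one_iff_isFixedPt.2 (map_zero σ)
      rw [h4] at h3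
      exact absurd (Nat.dvd_one.1 h3) hl.ne_one
    · rw [ol_fin _ h2]
      exact hσx b halg
  rw [he] at h1
  refine (hl.dvd_mul.1 h1).resolve_right fun h2 => ?_
  have hpos : 0 < ol (σ : ℂ →+* ℂ) x ∧ ol (σ : ℂ →+* ℂ) x < l := by
    by_cases hx1 : x 1 = 0
    · rw [ol_infty _ hx1]
      exact ⟨one_pos, hl.one_lt⟩
    · rw [ol_fin _ hx1]
      have hW := wp_ne_zero c hdeg a (hd a).1
      have hz : x 0 / x 1 ∈ (wp c a).roots.toFinset := by
        rw [Multiset.mem_toFinset, Polynomial.mem_roots hW, Polynomial.IsRoot.def]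
        have h3 := eval_wp c a (fun i => (x 1)⁻¹ * x i) (inv_mul_cancel₀ hx1)
        rw [wrh_smul, hx, mul_zero] at h3
        rw [div_eq_inv_mul]
        exact h3
      have hS : ∀ y ∈ (wp c a).roots.toFinset, σ y ∈ (wp c a).roots.toFinset := by
        intro y hy
        rw [Multiset.mem_toFinset, Polynomial.mem_roots hW, Polynomial.IsRoot.def] at hy ⊢
        have h3 : (wp c a).map (σ : ℂ →+* ℂ) = wp c a := by
          rw [wp, Polynomial.map_sum]
          refine Finset.sum_congr rfl fun i _ => ?_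
          rw [Polynomial.map_sum]
          refine Finset.sum_congr rfl fun j _ => ?_
          have h4 : ∀ q, (σ : ℂ →+* ℂ) (c q) = c q := fun q => hσK _ (hc q)
          have h5 : (σ : ℂ →+* ℂ) (((i : ℕ) - (j : ℕ) : ℂ) * c ⟨a, (0, i)⟩ * c ⟨a, (1, j)⟩) =
              ((i : ℕ) - (j : ℕ) : ℂ) * c ⟨a, (0, i)⟩ * c ⟨a, (1, j)⟩ := by
            rw [map_mul, map_mul, map_sub, map_natCast, map_natCast, h4, h4]
          rw [Polynomial.map_mul, Polynomial.map_C, Polynomial.map_pow, Polynomial.map_X, h5]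
        have h4 := congrArg (σ : ℂ →+* ℂ) hy
        rw [map_zero, ← Polynomial.eval_map_apply, h3] at h4
        exact h4
      obtain ⟨h3, h4⟩ := minimalPeriod_le_card σ σ.injective _ hS _ hz
      refine ⟨h3, h4.trans_lt ?_⟩
      have h5 : (wp c a).roots.toFinset.card ≤ 2 * d a - 2 :=
        (Multiset.toFinset_card_le _).trans ((Polynomial.card_roots' _).trans (natDegree_wp c a))
      have h6 := (hd a).2
      omega
  exact absurd (Nat.le_of_dvd hpos.1 h2) (not_le.2 hpos.2)

end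

end Pool.Agent.Helper10.OB
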